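import Pool.Agent.Helper15.HS.GoalsC

/-! Project HS-C, goal DBB: the bound for the derivatives of `B`. -/

open Complex Metric Set Filter Topology MeasureTheory
open scoped ContDiff ComplexConjugate ComplexOrder Manifold Matrix

namespace Pool.Agent.Helper62.HS

open Pool.Agent.Helper95.Lin Pool.Agent.Helper16.Abund Pool.Agent.Helper92.Orb
  Pool.Agent.Helper10.SP Pool.Agent.Helper95.RK Pool.Agent.Helper57.HS Pool.Agent.Helper15.HS

universe u

/-- The square of the Frobenius norm. -/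
noncomputable def frq {n m : ℕ} (M : Matrix (Fin n) (Fin m) ℂ) : ℝ := ∑ i, ∑ j, ‖M i j‖ ^ 2

theorem frq_nonneg {n m : ℕ} (M : Matrix (Fin n) (Fin m) ℂ) : 0 ≤ frq M :=
  Finset.sum_nonneg fun _ _ => Finset.sum_nonneg fun _ _ => by positivity

theorem frq_eq {n m : ℕ} (M : Matrix (Fin n) (Fin m) ℂ) : ((frq M : ℝ) : ℂ) = (M * Mᴴ).trace := by
  unfold frq Matrix.trace
  push_cast
  refine Finset.sum_congr rfl fun i _ => ?_
  rw [Matrix.diag_apply, Matrix.mul_apply]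
  refine Finset.sum_congr rfl fun j _ => ?_
  rw [Matrix.conjTranspose_apply, RCLike.star_def, Complex.mul_conj, Complex.normSq_eq_norm_sq]
  push_cast; rfl

theorem frq_ct {n m : ℕ} (M : Matrix (Fin n) (Fin m) ℂ) : frq Mᴴ = frq M := by
  unfold frq
  rw [Finset.sum_comm]
  refine Finset.sum_congr rfl fun i _ => Finset.sum_congr rfl fun j _ => ?_
  rw [Matrix.conjTranspose_apply, norm_star]

theorem frq_mul {n m p : ℕ} (M : Matrix (Fin n) (Fin m) ℂ) (N : Matrix (Fin m) (Fin p) ℂ) :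
    frq (M * N) ≤ frq M * frq N := by
  have h : ∀ i j, ‖(M * N) i j‖ ^ 2 ≤ (∑ k, ‖M i k‖ ^ 2) * ∑ k, ‖N k j‖ ^ 2 := by
    intro i j
    rw [Matrix.mul_apply]
    calc ‖∑ k, M i k * N k j‖ ^ 2 ≤ (∑ k, ‖M i k‖ * ‖N k j‖) ^ 2 := by
          gcongr
          refine (norm_sum_le _ _).trans (le_of_eq ?_)
          exact Finset.sum_congr rfl fun k _ => norm_mul _ _
      _ ≤ _ := Finset.sum_mul_sq_le_sq_mul_sq _ _ _
  calc frq (M * N) ≤ ∑ i, ∑ j, (∑ k, ‖M i k‖ ^ 2) * ∑ k, ‖N k j‖ ^ 2 :=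
        Finset.sum_le_sum fun i _ => Finset.sum_le_sum fun j _ => h i j
    _ = frq M * frq N := by
        unfold frq
        rw [Finset.sum_mul]
        refine Finset.sum_congr rfl fun i _ => ?_
        rw [← Finset.mul_sum, Finset.sum_comm]

theorem le_frq {n m : ℕ} (M : Matrix (Fin n) (Fin m) ℂ) (i : Fin n) (j : Fin m) :
    ‖M i j‖ ^ 2 ≤ frq M := by
  have h1 : ‖M i j‖ ^ 2 ≤ ∑ j, ‖M i j‖ ^ 2 :=
    Finset.single_le_sum (f := fun j => ‖M i j‖ ^ 2) (fun _ _ => by positivity)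
      (Finset.mem_univ j)
  have h2 : ∑ j, ‖M i j‖ ^ 2 ≤ frq M :=
    Finset.single_le_sum (f := fun i => ∑ j, ‖M i j‖ ^ 2)
      (fun _ _ => Finset.sum_nonneg fun _ _ => by positivity) (Finset.mem_univ i)
  exact h1.trans h2

open scoped MatrixOrder in
/-- a positive definite matrix is `Xᴴ X` with `X` invertible -/
theorem posDef_factor {n : ℕ} {A : Matrix (Fin n) (Fin n) ℂ} (hA : A.PosDef) :
    ∃ X : Matrix (Fin n) (Fin n) ℂ, IsUnit X.det ∧ A = Xᴴ * X := by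
  obtain ⟨X, hX⟩ := CStarAlgebra.nonneg_iff_eq_star_mul_self.mp hA.posSemidef.nonneg
  rw [Matrix.star_eq_conjTranspose] at hX
  refine ⟨X, ?_, hX⟩
  have h1 : A.det ≠ 0 := ne_of_gt hA.det_pos
  rw [hX, Matrix.det_mul] at h1
  exact isUnit_iff_ne_zero.2 (right_ne_zero_of_mul h1)

/-- combination bound -/
theorem comb_bound {n : ℕ} (X : Matrix (Fin n) (Fin n) ℂ) (hX : IsUnit X.det)
    (Z : Fin n → Matrix (Fin n) (Fin n) ℂ) :
    ∑ k, frq (Z k) ≤ frq X⁻¹ * ∑ a, frq (∑ k, X a k • Z k) := by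
  have hZ : ∀ k, Z k = ∑ a, X⁻¹ k a • ∑ l, X a l • Z l := by
    intro k
    simp_rw [Finset.smul_sum, smul_smul]
    rw [Finset.sum_comm]
    have h1 : ∀ l, ∑ a, (X⁻¹ k a * X a l) • Z l = (1 : Matrix (Fin n) (Fin n) ℂ) k l • Z l := by
      intro l
      rw [← Finset.sum_smul, ← Matrix.mul_apply, Matrix.nonsing_inv_mul _ hX]
    rw [Finset.sum_congr rfl fun l _ => h1 l]
    simp [Matrix.one_apply]
  set V : Fin n → Matrix (Fin n) (Fin n) ℂ := fun a => ∑ l, X a l • Z l with hV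
  have h2 : ∀ k i j, ‖Z k i j‖ ^ 2 ≤ (∑ a, ‖X⁻¹ k a‖ ^ 2) * ∑ a, ‖V a i j‖ ^ 2 := by
    intro k i j
    rw [hZ k, Matrix.sum_apply]
    simp only [Matrix.smul_apply, smul_eq_mul]
    calc ‖∑ a, X⁻¹ k a * V a i j‖ ^ 2 ≤ (∑ a, ‖X⁻¹ k a‖ * ‖V a i j‖) ^ 2 := by
          gcongr
          refine (norm_sum_le _ _).trans (le_of_eq ?_)
          exact Finset.sum_congr rfl fun k _ => norm_mul _ _
      _ ≤ _ := Finset.sum_mul_sq_le_sq_mul_sq _ _ _
  calc ∑ k, frq (Z k) ≤ ∑ k, ∑ i, ∑ j, (∑ a, ‖X⁻¹ k a‖ ^ 2) * ∑ a, ‖V a i j‖ ^ 2 :=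
        Finset.sum_le_sum fun k _ => Finset.sum_le_sum fun i _ => Finset.sum_le_sum fun j _ =>
          h2 k i j
    _ = frq X⁻¹ * ∑ a, frq (V a) := by
        have h3 : ∑ a, frq (V a) = ∑ i, ∑ j, ∑ a, ‖V a i j‖ ^ 2 := by
          unfold frq
          rw [Finset.sum_comm]
          refine Finset.sum_congr rfl fun i _ => ?_
          rw [Finset.sum_comm]
        rw [h3]
        conv_rhs => rw [frq, Finset.sum_mul]
        refine Finset.sum_congr rfl fun k _ => ?_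
        rw [Finset.mul_sum]
        refine Finset.sum_congr rfl fun i _ => ?_
        rw [Finset.mul_sum]

theorem arith_bound {L y x yi yx xy xi sZ sa : ℝ} (g1 : 0 ≤ y) (g2 : 0 ≤ x) (g3 : 0 ≤ yi)
    (g4 : 0 ≤ yx) (g5 : 0 ≤ xy) (g6 : 0 ≤ xi) (hs : 0 ≤ sa) (h4 : L ≤ y * x * sZ)
    (h3 : sZ ≤ xi * sa) (hXf : x ≤ yi * yx) (hXif : xi ≤ xy * y) :
    L ≤ yi * yx * y * (xy * y) * sa := by
  have e1 : y * x * sZ ≤ y * x * (xi * sa) := mul_le_mul_of_nonneg_left h3 (mul_nonneg g1 g2)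
  have e2 : y * x ≤ y * (yi * yx) := mul_le_mul_of_nonneg_left hXf g1
  have e3 : xi * sa ≤ (xy * y) * sa := mul_le_mul_of_nonneg_right hXif hs
  have e4 : y * x * (xi * sa) ≤ y * (yi * yx) * ((xy * y) * sa) :=
    mul_le_mul e2 e3 (mul_nonneg g6 hs) (mul_nonneg g1 (mul_nonneg g3 g4))
  calc L ≤ y * x * sZ := h4
    _ ≤ y * x * (xi * sa) := e1
    _ ≤ y * (yi * yx) * ((xy * y) * sa) := e4
    _ = _ := by ring

/-- the pointwise statement: `H`, `K` positive definite, `Q = K⁻¹` -/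
theorem pointwise {n : ℕ} {H Q : Matrix (Fin n) (Fin n) ℂ} (hH : H.PosDef) (hQ : Q.PosDef)
    (A : Fin n → Matrix (Fin n) (Fin n) ℂ) :
    frq (H * Q⁻¹) ≤ (H.trace.re * (H⁻¹).trace.re) * (H * Q⁻¹).trace.re ^ 2 ∧
    0 ≤ H.trace.re ∧ 0 ≤ (H⁻¹).trace.re ∧ 0 ≤ (H * Q⁻¹).trace.re ∧ 0 ≤ (Q * H⁻¹).trace.re ∧
    0 ≤ (∑ k, ∑ l, Q⁻¹ l k * Matrix.trace (A k * H * (A l)ᴴ * Q⁻¹)).re ∧
    ∑ l, frq (H * (A l)ᴴ * Q⁻¹) ≤ ((H⁻¹).trace.re * (H * Q⁻¹).trace.re) * H.trace.re *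
      ((Q * H⁻¹).trace.re * H.trace.re) *
      (∑ k, ∑ l, Q⁻¹ l k * Matrix.trace (A k * H * (A l)ᴴ * Q⁻¹)).re := by
  obtain ⟨Y, hY, hHY⟩ := posDef_factor hH
  obtain ⟨X, hX, hKX⟩ := posDef_factor hQ.inv
  have hQX : Q = X⁻¹ * (X⁻¹)ᴴ := by
    have h1 : Q = (Q⁻¹)⁻¹ :=
      (Matrix.nonsing_inv_nonsing_inv _ (isUnit_iff_ne_zero.2 (ne_of_gt hQ.det_pos))).symm
    rw [h1, hKX, Matrix.mul_inv_rev, Matrix.conjTranspose_nonsing_inv]
  have hHinv : H⁻¹ = Y⁻¹ * (Y⁻¹)ᴴ := by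
    rw [hHY, Matrix.mul_inv_rev, Matrix.conjTranspose_nonsing_inv]
  -- traces
  have tH : H.trace.re = frq Y := by
    have h1 := frq_eq Yᴴ
    rw [Matrix.conjTranspose_conjTranspose, ← hHY, frq_ct] at h1
    rw [← h1, Complex.ofReal_re]
  have tHi : (H⁻¹).trace.re = frq Y⁻¹ := by
    have h1 := frq_eq Y⁻¹
    rw [← hHinv] at h1
    rw [← h1, Complex.ofReal_re]
  have tK : frq X = (Q⁻¹).trace.re := by
    have h1 := frq_eq Xᴴ
    rw [Matrix.conjTranspose_conjTranspose, ← hKX, frq_ct] at h1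
    rw [← h1, Complex.ofReal_re]
  have tHK : (H * Q⁻¹).trace.re = frq (Y * Xᴴ) := by
    have h1 := frq_eq (Y * Xᴴ)
    have h2 : (Y * Xᴴ * (Y * Xᴴ)ᴴ).trace = (H * Q⁻¹).trace := by
      rw [Matrix.conjTranspose_mul, Matrix.conjTranspose_conjTranspose, hHY, hKX]
      rw [show Y * Xᴴ * (X * Yᴴ) = (Y * (Xᴴ * X)) * Yᴴ by simp only [Matrix.mul_assoc],
        Matrix.trace_mul_comm]
      simp only [Matrix.mul_assoc]
    rw [h2] at h1
    rw [← h1, Complex.ofReal_re]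
  have tQH : (Q * H⁻¹).trace.re = frq ((X⁻¹)ᴴ * Y⁻¹) := by
    have h1 := frq_eq ((X⁻¹)ᴴ * Y⁻¹)
    have h2 : ((X⁻¹)ᴴ * Y⁻¹ * ((X⁻¹)ᴴ * Y⁻¹)ᴴ).trace = (Q * H⁻¹).trace := by
      rw [Matrix.conjTranspose_mul, Matrix.conjTranspose_conjTranspose, hQX, hHinv]
      rw [show (X⁻¹)ᴴ * Y⁻¹ * ((Y⁻¹)ᴴ * X⁻¹) = ((X⁻¹)ᴴ * (Y⁻¹ * (Y⁻¹)ᴴ)) * X⁻¹ by
        simp only [Matrix.mul_assoc], Matrix.trace_mul_comm]
      simp only [Matrix.mul_assoc]
    rw [h2] at h1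
    rw [← h1, Complex.ofReal_re]
  -- the quadratic form
  set Z : Fin n → Matrix (Fin n) (Fin n) ℂ := fun k => X * A k * Yᴴ with hZ
  have hAA : (∑ k, ∑ l, Q⁻¹ l k * Matrix.trace (A k * H * (A l)ᴴ * Q⁻¹)).re =
      ∑ a, frq (∑ k, X a k • Z k) := by
    have h1 : ∀ k l, Matrix.trace (A k * H * (A l)ᴴ * Q⁻¹) = Matrix.trace (Z k * (Z l)ᴴ) := by
      intro k l
      rw [hZ, hHY, hKX]
      simp only [Matrix.conjTranspose_mul, Matrix.conjTranspose_conjTranspose]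
      rw [show X * A k * Yᴴ * (Y * ((A l)ᴴ * Xᴴ)) = X * (A k * (Yᴴ * (Y * ((A l)ᴴ * Xᴴ)))) by
        simp only [Matrix.mul_assoc], Matrix.trace_mul_comm X]
      simp only [Matrix.mul_assoc]
    have h2 : ∀ k l, Q⁻¹ l k = ∑ a, conj (X a l) * X a k := by
      intro k l
      rw [hKX, Matrix.mul_apply]
      exact Finset.sum_congr rfl fun a _ => by rw [Matrix.conjTranspose_apply]; rfl
    have h3 : (∑ k, ∑ l, Q⁻¹ l k * Matrix.trace (A k * H * (A l)ᴴ * Q⁻¹)) =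
        ((∑ a, frq (∑ k, X a k • Z k) : ℝ) : ℂ) := by
      push_cast
      simp_rw [frq_eq, Matrix.conjTranspose_sum, Matrix.conjTranspose_smul, Matrix.sum_mul,
        Matrix.mul_sum, Matrix.smul_mul, Matrix.mul_smul, Matrix.trace_sum, Matrix.trace_smul,
        smul_eq_mul]
      conv_rhs => rw [Finset.sum_comm]
      refine Finset.sum_congr rfl fun k _ => ?_
      conv_rhs => rw [Finset.sum_comm]
      refine Finset.sum_congr rfl fun l _ => ?_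
      rw [h1, h2, Finset.sum_mul]
      refine Finset.sum_congr rfl fun a _ => ?_
      rw [RCLike.star_def]
      ring
    rw [h3, Complex.ofReal_re]
  have hXf : frq X ≤ frq Y⁻¹ * frq (Y * Xᴴ) := by
    have h1 : Xᴴ = Y⁻¹ * (Y * Xᴴ) := by
      rw [← Matrix.mul_assoc, Matrix.nonsing_inv_mul _ hY, Matrix.one_mul]
    calc frq X = frq Xᴴ := (frq_ct X).symm
      _ = frq (Y⁻¹ * (Y * Xᴴ)) := by rw [← h1]
      _ ≤ _ := frq_mul _ _
  have hXif : frq X⁻¹ ≤ frq ((X⁻¹)ᴴ * Y⁻¹) * frq Y := by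
    have h1 : (X⁻¹)ᴴ = (X⁻¹)ᴴ * Y⁻¹ * Y := by
      rw [Matrix.mul_assoc, Matrix.nonsing_inv_mul _ hY, Matrix.mul_one]
    calc frq X⁻¹ = frq (X⁻¹)ᴴ := (frq_ct _).symm
      _ = frq ((X⁻¹)ᴴ * Y⁻¹ * Y) := by rw [← h1]
      _ ≤ _ := frq_mul _ _
  have hsum : 0 ≤ ∑ a, frq (∑ k, X a k • Z k) := Finset.sum_nonneg fun a _ => frq_nonneg _
  refine ⟨?_, ?_, ?_, ?_, ?_, ?_, ?_⟩
  · rw [tH, tHi, tHK]
    have h1 : H * Q⁻¹ = Yᴴ * ((Y * Xᴴ) * X) := by
      rw [hKX, hHY]; simp only [Matrix.mul_assoc]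
    calc frq (H * Q⁻¹) = frq (Yᴴ * ((Y * Xᴴ) * X)) := by rw [h1]
      _ ≤ frq Yᴴ * frq ((Y * Xᴴ) * X) := frq_mul _ _
      _ ≤ frq Yᴴ * (frq (Y * Xᴴ) * frq X) :=
          mul_le_mul_of_nonneg_left (frq_mul _ _) (frq_nonneg _)
      _ = frq Y * (frq (Y * Xᴴ) * frq X) := by rw [frq_ct]
      _ ≤ frq Y * (frq (Y * Xᴴ) * (frq Y⁻¹ * frq (Y * Xᴴ))) := by
          apply mul_le_mul_of_nonneg_left _ (frq_nonneg _)
          exact mul_le_mul_of_nonneg_left hXf (frq_nonneg _)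
      _ = _ := by ring
  · rw [tH]; exact frq_nonneg _
  · rw [tHi]; exact frq_nonneg _
  · rw [tHK]; exact frq_nonneg _
  · rw [tQH]; exact frq_nonneg _
  · rw [hAA]; exact hsum
  · rw [hAA, tH, tHi, tHK, tQH]
    have h1 : ∀ l, frq (H * (A l)ᴴ * Q⁻¹) ≤ frq Y * frq X * frq (Z l) := by
      intro l
      have h2 : H * (A l)ᴴ * Q⁻¹ = Yᴴ * ((Z l)ᴴ * X) := by
        rw [hKX, hHY, hZ]
        simp only [Matrix.conjTranspose_mul, Matrix.conjTranspose_conjTranspose, Matrix.mul_assoc]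
      calc frq (H * (A l)ᴴ * Q⁻¹) = frq (Yᴴ * ((Z l)ᴴ * X)) := by rw [h2]
        _ ≤ frq Yᴴ * frq ((Z l)ᴴ * X) := frq_mul _ _
        _ ≤ frq Yᴴ * (frq (Z l)ᴴ * frq X) :=
            mul_le_mul_of_nonneg_left (frq_mul _ _) (frq_nonneg _)
        _ = _ := by rw [frq_ct, frq_ct]; ring
    have h3 := comb_bound X hX Z
    have hs := hsum
    have g1 := frq_nonneg Y
    have g2 := frq_nonneg X
    have g3 := frq_nonneg Y⁻¹
    have g4 := frq_nonneg (Y * Xᴴ)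
    have g5 := frq_nonneg ((X⁻¹)ᴴ * Y⁻¹)
    have g6 := frq_nonneg X⁻¹
    have h4 : ∑ l, frq (H * (A l)ᴴ * Q⁻¹) ≤ frq Y * frq X * ∑ l, frq (Z l) := by
      rw [Finset.mul_sum]
      exact Finset.sum_le_sum fun l _ => h1 l
    exact arith_bound g1 g2 g3 g4 g5 g6 hs h4 h3 hXf hXif

theorem cdb_const_mul {n : ℕ} (l : Fin n) (c : ℂ) (f : Cn n → ℂ) (x : Cn n)
    (hf : DifferentiableAt ℝ f x) : cdb l (fun y => c * f y) x = c * cdb l f x := by
  unfold cdb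
  rw [fderiv_const_mul hf]
  simp only [ContinuousLinearMap.smul_apply, smul_eq_mul]
  ring

theorem dbb (hMCAL : S_MCAL) (hCLG : S_CLG) : S_DBB.{u} := by
  intro n T G _ R H hH C hCT hC
  have hcont : ∀ i j, ContinuousOn (fun x => H x i j) C := fun i j =>
    ((hH.smooth i j).continuousOn).mono hCT
  by_cases hne : C.Nonempty
  swap
  · refine ⟨0, fun ε Q _ _ _ x hx => absurd ⟨x, hx⟩ hne⟩
  have hcinv : ∀ (hT : IsOpen T), ∀ i j, ContinuousOn (fun x => (H x)⁻¹ i j) C := by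
    intro hT i j
    have h1 := (hMCAL T hT H H hH.smooth hH.smooth).2.2.2.1
      (fun x hx => ne_of_gt (hH.posDef x hx).det_pos)
    exact ((h1.1 i j).continuousOn).mono hCT
  by_cases hT : IsOpen T
  swap
  · refine ⟨0, fun ε Q _ hQ _ x hx => absurd hQ.et.isOpen hT⟩
  have hc1 : ContinuousOn (fun x => (H x).trace.re) C := by
    apply Complex.continuous_re.comp_continuousOn
    unfold Matrix.trace
    simp only [Matrix.diag_apply]
    exact continuousOn_finsetSum _ fun i _ => hcont i i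
  have hc2 : ContinuousOn (fun x => ((H x)⁻¹).trace.re) C := by
    apply Complex.continuous_re.comp_continuousOn
    unfold Matrix.trace
    simp only [Matrix.diag_apply]
    exact continuousOn_finsetSum _ fun i _ => hcinv hT i i
  obtain ⟨b1, hb1⟩ := hC.exists_bound_of_continuousOn hc1
  obtain ⟨b2, hb2⟩ := hC.exists_bound_of_continuousOn hc2
  obtain ⟨x0, hx0⟩ := hne
  have hb1n : 0 ≤ b1 := (norm_nonneg _).trans (hb1 x0 hx0)
  have hb2n : 0 ≤ b2 := (norm_nonneg _).trans (hb2 x0 hx0)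
  refine ⟨n * (b1 * b2 + 1) + n * b2 * b1 * b1, ?_⟩
  intro ε Q hε hQ htr x hx
  have hxT := hCT hx
  have hHp := hH.posDef x hxT
  have hQp := hQ.posDef x hxT
  have h1 : (H x).trace.re ≤ b1 := (le_abs_self _).trans (hb1 x hx)
  have h2 : ((H x)⁻¹).trace.re ≤ b2 := (le_abs_self _).trans (hb2 x hx)
  obtain ⟨p1, p2, p3, p4, p5, p6, p7⟩ := pointwise hHp hQp (fun k => Adf H Q k x)
  have htrx := htr x hxT
  set tHK := ((H x) * (Q x)⁻¹).trace.re with htHK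
  have hn0 : (0 : ℝ) ≤ n := Nat.cast_nonneg n
  refine ⟨?_, ?_⟩
  · intro a c
    have h3 : ‖Bep ε H Q x a c‖ = ε * ‖(H x * (Q x)⁻¹) a c‖ := by
      unfold Bep
      rw [Matrix.smul_apply, smul_eq_mul, norm_mul, Complex.norm_real, Real.norm_of_nonneg hε.le]
    have h4 : ‖Bep ε H Q x a c‖ ^ 2 ≤ (n * (b1 * b2 + 1)) ^ 2 := by
      rw [h3, mul_pow]
      calc ε ^ 2 * ‖(H x * (Q x)⁻¹) a c‖ ^ 2 ≤ ε ^ 2 * (((H x).trace.re * ((H x)⁻¹).trace.re) *
            tHK ^ 2) := by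
            apply mul_le_mul_of_nonneg_left _ (by positivity)
            exact (le_frq _ a c).trans p1
        _ = ((H x).trace.re * ((H x)⁻¹).trace.re) * (ε * tHK) ^ 2 := by ring
        _ ≤ (b1 * b2) * (n : ℝ) ^ 2 := by
            have : 0 ≤ ε * tHK := by positivity
            gcongr
        _ ≤ (n * (b1 * b2 + 1)) ^ 2 := by
            have : 0 ≤ b1 * b2 := by positivity
            have h5 : b1 * b2 ≤ (b1 * b2 + 1) ^ 2 := by nlinarith
            calc (b1 * b2) * (n : ℝ) ^ 2 ≤ (b1 * b2 + 1) ^ 2 * (n : ℝ) ^ 2 := by gcongr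
              _ = _ := by ring
    have h5 : ‖Bep ε H Q x a c‖ ≤ n * (b1 * b2 + 1) :=
      (sq_le_sq₀ (norm_nonneg _) (by positivity)).1 h4
    have h6 : 0 ≤ n * b2 * b1 * b1 := by positivity
    linarith
  · -- smoothness
    have sQ := (hMCAL T hT Q Q hQ.smooth hQ.smooth).2.2.2.1
      (fun x hx => ne_of_gt (hQ.posDef x hx).det_pos)
    have sHK := (hMCAL T hT H (fun y => (Q y)⁻¹) hH.smooth sQ.1).2.1
    have hcdM : ∀ x ∈ T, ∀ k, cdM k H x = Gam H k x * H x := by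
      intro y hy k
      unfold Gam
      rw [Matrix.mul_assoc, Matrix.nonsing_inv_mul _
        (isUnit_iff_ne_zero.2 (ne_of_gt (hH.posDef y hy).det_pos)), Matrix.mul_one]
    have hGs : ∀ k i j, ContDiffOn ℝ ∞ (fun x => Gam H k x i j) T := by
      intro k i j
      have s1 := (hMCAL T hT H H hH.smooth hH.smooth).1
      have s2 := (hMCAL T hT H H hH.smooth hH.smooth).2.2.2.1
        (fun x hx => ne_of_gt (hH.posDef x hx).det_pos)
      exact (hMCAL T hT (fun y => cdM k H y) (fun y => (H y)⁻¹) (fun i j => (s1 k i j).1)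
        s2.1).2.1 i j
    have hcl := (hCLG T hT Q H (fun y => Q y - rho Q y) (Gam H)
      ⟨hQ.smooth, fun y hy => (hQ.posDef y hy).isHermitian, hQ.closed⟩ hQ.posDef
      (fun y _ => by simp) hH.smooth (fun y hy => (hH.posDef y hy).isHermitian) hGs hcdM
      x hxT).2.1
    have hd : ∀ l a c, cdb l (fun y => Bep ε H Q y a c) x =
        - ((ε : ℂ) * (H x * (Adf H Q l x)ᴴ * (Q x)⁻¹) a c) := by
      intro l a c
      have h3 : (fun y => Bep ε H Q y a c) = fun y => (ε : ℂ) * (H y * (Q y)⁻¹) a c := by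
        funext y
        unfold Bep
        rw [Matrix.smul_apply, smul_eq_mul]
      have h4 : DifferentiableAt ℝ (fun y => (H y * (Q y)⁻¹) a c) x :=
        ((sHK a c).contDiffAt (hT.mem_nhds hxT)).differentiableAt (by simp)
      rw [h3, cdb_const_mul l _ _ x h4]
      have h5 := congrFun (congrFun (hcl l) a) c
      have h6 : cdb l (fun y => (H y * (Q y)⁻¹) a c) x =
          cdbM l (fun y => H y * (Q y)⁻¹) x a c := rfl
      rw [h6, h5, Matrix.neg_apply]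
      unfold Adf
      ring
    have hsum : ∑ l, ∑ a, ∑ c, ‖cdb l (fun y => Bep ε H Q y a c) x‖ ^ 2 =
        ε ^ 2 * ∑ l, frq (H x * (Adf H Q l x)ᴴ * (Q x)⁻¹) := by
      unfold frq
      rw [Finset.mul_sum]
      refine Finset.sum_congr rfl fun l _ => ?_
      rw [Finset.mul_sum]
      refine Finset.sum_congr rfl fun a _ => ?_
      rw [Finset.mul_sum]
      refine Finset.sum_congr rfl fun c _ => ?_
      rw [hd, norm_neg, norm_mul, Complex.norm_real, Real.norm_of_nonneg hε.le, mul_pow]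
    rw [hsum]
    change 0 ≤ AAt H Q x at p6
    change _ ≤ _ * AAt H Q x at p7
    set tQH := (Q x * (H x)⁻¹).trace.re with htQH
    have hK : n * b2 * b1 * b1 ≤ n * (b1 * b2 + 1) + n * b2 * b1 * b1 := by
      have : 0 ≤ n * (b1 * b2 + 1) := by positivity
      linarith
    have hpos : 0 ≤ ε * tHK := by positivity
    calc ε ^ 2 * ∑ l, frq (H x * (Adf H Q l x)ᴴ * (Q x)⁻¹) ≤
        ε ^ 2 * ((((H x)⁻¹).trace.re * tHK) * (H x).trace.re * (tQH * (H x).trace.re) *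
          AAt H Q x) := by
          apply mul_le_mul_of_nonneg_left p7 (by positivity)
      _ = (((H x)⁻¹).trace.re * (ε * tHK) * (H x).trace.re * (H x).trace.re) *
          (tQH * (ε * AAt H Q x)) := by ring
      _ ≤ (b2 * n * b1 * b1) * (tQH * (ε * AAt H Q x)) := by gcongr
      _ = (n * b2 * b1 * b1) * (tQH * (ε * AAt H Q x)) := by ring
      _ ≤ (n * (b1 * b2 + 1) + n * b2 * b1 * b1) * (tQH * (ε * AAt H Q x)) := by gcongr
      _ = _ := by ring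

end Pool.Agent.Helper62.HS
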